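import Pool.Agent.H13.K2S.Claim

/-!
# Claims hold for events of constant relative probability

A claim about stable events of maximal families holds, simultaneously, for all sub-events whose
relative probability is at least a fixed constant.
-/

set_option autoImplicit false

namespace Pool.K2S

open Finset Real
open Pool.Agent.H49.Ent Pool.Agent.H32.Dense Pool.STK Pool.KA

variable {m : ℕ}

/-- A constant factor is absorbed by an exponential. -/
theorem exp_le_const {ρ δ : ℝ} (hρ : 0 < ρ) (hδ : 0 < δ) :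
    ∃ J₀ : ℕ, ∀ J ≥ J₀, Real.exp (-(δ * (J : ℝ))) ≤ ρ := by
  obtain ⟨J₀, hJ₀⟩ := exists_nat_gt (|Real.log ρ| / δ)
  refine ⟨J₀, fun J hJ => ?_⟩
  have h1 : |Real.log ρ| < δ * J := by
    have h2 : |Real.log ρ| / δ < J := hJ₀.trans_le (by exact_mod_cast hJ)
    rw [div_lt_iff₀ hδ] at h2
    linarith
  have h2 := neg_abs_le (Real.log ρ)
  calc Real.exp (-(δ * J)) ≤ Real.exp (Real.log ρ) := Real.exp_le_exp.2 (by linarith)
    _ = ρ := Real.exp_log hρ

/-- Sub-events of constant relative probability are large. -/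
theorem Fam.Stt.sub_const {J : ℕ} {F : Fam m J} {a R τ ρ : ℝ} {A A' : F.Ω → Prop}
    (hS : Fam.Stt F a R (τ / 2) A) (hτ : 0 < τ)
    (hJ : Real.exp (-(τ / 2 * (J : ℝ))) ≤ ρ) (hP : ρ * Pe F.p A ≤ Pe F.p A') :
    Fam.Stt F a R τ A' := by
  have h0 := hS.mono (τ' := τ) (by linarith)
  refine ⟨h0.1, h0.2.1, h0.2.2.1, ?_⟩
  refine le_trans ?_ hP
  have h1 := hS.2.2.2
  have h2 : Real.exp (-(τ * (J : ℝ))) =
      Real.exp (-(τ / 2 * (J : ℝ))) * Real.exp (-(τ / 2 * (J : ℝ))) := by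
    rw [← Real.exp_add]
    congr 1
    ring
  rw [h2]
  exact mul_le_mul hJ h1 (Real.exp_pos _).le ((Real.exp_pos _).le.trans hJ)

theorem Cl.ev {a R ρ : ℝ} (hρ : 0 < ρ) : ∀ {r : ℕ} {Φ : Stat m}, Cl a R r Φ →
    Cl a R r (fun _ F A => ∀ A' : F.Ω → Prop, Sub A' A → ρ * Pe F.p A ≤ Pe F.p A' → Φ _ F A')
  | 0, _, ⟨τ, hτ, J₁, hc⟩ => by
    obtain ⟨J₀, hJ₀⟩ := exp_le_const hρ (half_pos hτ)
    refine ⟨τ / 2, half_pos hτ, max J₁ J₀, fun J hJ F A hA A' _ hP => ?_⟩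
    exact hc J ((le_max_left _ _).trans hJ) F A'
      (hA.sub_const hτ (hJ₀ J ((le_max_right _ _).trans hJ)) hP)
  | r + 1, Φ, ⟨L, hc⟩ => by
    refine ⟨L, fun κ hκ => ?_⟩
    obtain ⟨J₀, hJ₀⟩ := exp_le_const hρ (half_pos hκ)
    refine Cl.mono (J₂ := J₀) ?_ (Cl.ev hρ (hc (κ / 2) (half_pos hκ)))
    intro J hJ F A h1 h2 A' hA' hP
    refine h1 A' hA' hP fun i => ?_
    have h3 := (h2 i).sub (a := κ / 2 * J) (L.her J F i) hA'
      (le_trans (mul_le_mul_of_nonneg_right (hJ₀ J hJ) (Pe_nonneg F.isLaw A)) hP)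
    refine h3.mono F.isLaw ?_
    linarith

/-- **Claims hold for all sub-events of constant relative probability.** -/
theorem Claim.ev {a R ρ : ℝ} (hρ : 0 < ρ) {Φ : Stat m} (h : Claim a R Φ) :
    Claim a R (fun _ F A => ∀ A' : F.Ω → Prop, Sub A' A → ρ * Pe F.p A ≤ Pe F.p A' →
      Φ _ F A') := h.imp fun _ hr => Cl.ev hρ hr

/-- The claim for the event itself and for all sub-events of constant relative probability. -/
theorem Claim.ev_and {a R ρ : ℝ} (hρ : 0 < ρ) {Φ : Stat m} (h : Claim a R Φ) :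
    Claim a R (fun _ F A => Φ _ F A ∧ ∀ A' : F.Ω → Prop, Sub A' A → ρ * Pe F.p A ≤ Pe F.p A' →
      Φ _ F A') := h.and (Claim.ev hρ h)

end Pool.K2S
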